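import Pool.Agent.helper1.PR.Defs
import Pool.Agent.helper3.PR.E

/-!
PR project (MP_15abe0_co), module J7: replacing a function by its cell averages costs at most
the square root of the energy increment.
-/

namespace Pool.Agent.helper1.PR

open Finset

private theorem card_res (r a n v : ℤ) (hr : 0 < r) (hn : 0 ≤ n) :
    (#{x ∈ Ico (r * a) (r * (a + n)) | r ∣ x - v} : ℤ) = n := by
  have : ({x ∈ Ico (r * a) (r * (a + n)) | r ∣ x - v}) = {x ∈ Ico (r * a) (r * (a + n)) | x ≡ v [ZMOD r]} := by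
    refine filter_congr fun x _ => ?_
    rw [Int.modEq_comm, Int.modEq_iff_dvd]
  rw [this, Int.Ico_filter_modEq_card _ _ hr]
  have e : ∀ b : ℤ, ⌈(((r * b : ℤ) : ℚ) - v) / r⌉ = b + ⌈-((v : ℚ) / r)⌉ := by
    intro b
    have hr' : (r : ℚ) ≠ 0 := by exact_mod_cast hr.ne'
    rw [← Int.ceil_intCast_add]
    congr 1
    push_cast
    field_simp
    ring
  rw [e, e]
  rw [max_eq_left (by linarith)]
  ring

private theorem sum_Om_right7 {Q' Lw Ly : ℕ} (hQ : 0 < Q') (h : 2 * Q' ∣ Lw) (F : ℤ√2 → ℝ) :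
    ∑ p ∈ Om Q' Lw Ly, F p.2 = ((Lw : ℝ) / Q') ^ 2 * ∑ y ∈ box Ly, F y := by
  obtain ⟨k, rfl⟩ := h
  have hQ' : (0 : ℝ) < Q' := by exact_mod_cast hQ
  rw [Om, sum_filter, sum_product_right, mul_sum]
  refine sum_congr rfl fun y _ => ?_
  dsimp only
  rw [← sum_filter, sum_const, nsmul_eq_mul]
  congr 1
  have e1 : (#{w ∈ box (2 * Q' * k) | (2 * (Q' : ℤ)) ∣ w.re - y.re ∧ (Q' : ℤ) ∣ w.im - y.im}) =
      #{a ∈ Ico (2 * ((2 * Q' * k : ℕ) : ℤ)) (4 * ((2 * Q' * k : ℕ) : ℤ)) |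
        (2 * (Q' : ℤ)) ∣ a - y.re} *
      #{b ∈ Ico (0 : ℤ) ((2 * Q' * k : ℕ) : ℤ) | (Q' : ℤ) ∣ b - y.im} := by
    rw [← card_product, ← filter_product, box, filter_map, card_map]
    rfl
  rw [e1]
  have e2 := card_res (2 * Q') (2 * k) (2 * k) y.re (by positivity) (by positivity)
  have e3 := card_res Q' 0 (2 * k) y.im (by positivity) (by positivity)
  have f2 : (2 * (Q' : ℤ)) * (2 * k) = 2 * ((2 * Q' * k : ℕ) : ℤ) := by push_cast; ring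
  have f2' : (2 * (Q' : ℤ)) * (2 * k + 2 * k) = 4 * ((2 * Q' * k : ℕ) : ℤ) := by push_cast; ring
  have f3 : (Q' : ℤ) * 0 = 0 := by ring
  have f3' : (Q' : ℤ) * (0 + 2 * k) = ((2 * Q' * k : ℕ) : ℤ) := by push_cast; ring
  rw [f2, f2'] at e2
  rw [f3, f3'] at e3
  have g2 : ((#{a ∈ Ico (2 * ((2 * Q' * k : ℕ) : ℤ)) (4 * ((2 * Q' * k : ℕ) : ℤ)) |
        (2 * (Q' : ℤ)) ∣ a - y.re} : ℕ) : ℝ) = 2 * k := by exact_mod_cast e2
  have g3 : ((#{b ∈ Ico (0 : ℤ) ((2 * Q' * k : ℕ) : ℤ) | (Q' : ℤ) ∣ b - y.im} : ℕ) : ℝ) = 2 * k := by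
    exact_mod_cast e3
  rw [Nat.cast_mul, g2, g3]
  push_cast
  field_simp

private theorem sum_Om_eq (Q' Lw Ly : ℕ) (H : ℤ√2 → ℤ√2 → ℝ) :
    ∑ p ∈ Om Q' Lw Ly, H p.1 p.2 = ∑ w ∈ box Lw, ∑ y ∈ box Ly,
      if (2 * (Q' : ℤ)) ∣ w.re - y.re ∧ (Q' : ℤ) ∣ w.im - y.im then H w y else 0 := by
  rw [Om, sum_filter, sum_product]

private theorem step {M s0 Q' Ly : ℕ} (h2 : 2 * Q' ∣ M)
    (f c : ℤ√2 → ℝ) (w : ℤ√2) (Φ : ℤ√2 → ℝ)
    (hΦ' : ∀ y y', y ∈ box Ly → y' ∈ box Ly → y.re % (M : ℤ) = y'.re % (M : ℤ) →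
      y.im % (M : ℤ) = y'.im % (M : ℤ) →
      (2 * (Q' : ℤ)) ∣ w.re - y.re → (Q' : ℤ) ∣ w.im - y.im → Φ y = Φ y') :
    (∑ y ∈ box Ly, if (2 * (Q' : ℤ)) ∣ w.re - y.re ∧ (Q' : ℤ) ∣ w.im - y.im then
      (f y - c y) * Φ y else 0) =
    ∑ y ∈ box Ly, if (2 * (Q' : ℤ)) ∣ w.re - y.re ∧ (Q' : ℤ) ∣ w.im - y.im then
      (cav M s0 Ly f y - c y) * Φ y else 0 := by
  classical
  have hM2 : (2 * (Q' : ℤ)) ∣ (M : ℤ) := by exact_mod_cast h2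
  have hM1 : (Q' : ℤ) ∣ (M : ℤ) := dvd_trans (dvd_mul_left _ _) hM2
  set G : ℤ√2 → ℝ := fun y =>
    if (2 * (Q' : ℤ)) ∣ w.re - y.re ∧ (Q' : ℤ) ∣ w.im - y.im then Φ y else 0 with hG
  have hcongr : ∀ y ∈ box Ly, ∀ y' ∈ box Ly, lab M s0 Ly y = lab M s0 Ly y' → G y = G y' := by
    intro y hy y' hy' hl
    have hr : y.re % (M : ℤ) = y'.re % (M : ℤ) := congrArg Prod.fst hl
    have hi : y.im % (M : ℤ) = y'.im % (M : ℤ) := congrArg (fun q => q.2.1) hl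
    have hr' : (M : ℤ) ∣ y'.re - y.re := Int.ModEq.dvd hr
    have hi' : (M : ℤ) ∣ y'.im - y.im := Int.ModEq.dvd hi
    have e1 : (2 * (Q' : ℤ)) ∣ w.re - y.re ↔ (2 * (Q' : ℤ)) ∣ w.re - y'.re := by
      have h := dvd_trans hM2 hr'
      constructor
      · intro h'
        have := dvd_sub h' h
        rwa [show w.re - y.re - (y'.re - y.re) = w.re - y'.re by ring] at this
      · intro h'
        have := dvd_add h' h
        rwa [show w.re - y'.re + (y'.re - y.re) = w.re - y.re by ring] at this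
    have e2 : (Q' : ℤ) ∣ w.im - y.im ↔ (Q' : ℤ) ∣ w.im - y'.im := by
      have h := dvd_trans hM1 hi'
      constructor
      · intro h'
        have := dvd_sub h' h
        rwa [show w.im - y.im - (y'.im - y.im) = w.im - y'.im by ring] at this
      · intro h'
        have := dvd_add h' h
        rwa [show w.im - y'.im + (y'.im - y.im) = w.im - y.im by ring] at this
    simp only [hG]
    by_cases hc : (2 * (Q' : ℤ)) ∣ w.re - y.re ∧ (Q' : ℤ) ∣ w.im - y.im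
    · rw [if_pos hc, if_pos ⟨e1.1 hc.1, e2.1 hc.2⟩]
      exact hΦ' y y' hy hy' hr hi hc.1 hc.2
    · rw [if_neg hc, if_neg]
      rintro ⟨h1, h2⟩
      exact hc ⟨e1.2 h1, e2.2 h2⟩
  set ψ : ℤ × ℤ × ℤ × ℤ → ℝ := fun ℓ =>
    if h : ∃ y ∈ box Ly, lab M s0 Ly y = ℓ then G h.choose else 0 with hψ
  have hψG : ∀ y ∈ box Ly, ψ (lab M s0 Ly y) = G y := by
    intro y hy
    have h : ∃ y' ∈ box Ly, lab M s0 Ly y' = lab M s0 Ly y := ⟨y, hy, rfl⟩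
    simp only [hψ]
    rw [dif_pos h]
    exact hcongr _ h.choose_spec.1 y hy h.choose_spec.2
  have hp := cav_pair M s0 Ly f ψ
  have h1 : ∑ y ∈ box Ly, f y * G y = ∑ y ∈ box Ly, cav M s0 Ly f y * G y := by
    calc ∑ y ∈ box Ly, f y * G y = ∑ y ∈ box Ly, f y * ψ (lab M s0 Ly y) :=
          Finset.sum_congr rfl fun y hy => by rw [hψG y hy]
      _ = ∑ y ∈ box Ly, cav M s0 Ly f y * ψ (lab M s0 Ly y) := hp
      _ = ∑ y ∈ box Ly, cav M s0 Ly f y * G y :=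
          Finset.sum_congr rfl fun y hy => by rw [hψG y hy]
  have h3 : ∀ g : ℤ√2 → ℝ, (∑ y ∈ box Ly,
      if (2 * (Q' : ℤ)) ∣ w.re - y.re ∧ (Q' : ℤ) ∣ w.im - y.im then
      (g y - c y) * Φ y else 0) = ∑ y ∈ box Ly, g y * G y - ∑ y ∈ box Ly, c y * G y := by
    intro g
    rw [← Finset.sum_sub_distrib]
    refine Finset.sum_congr rfl fun y _ => ?_
    simp only [hG]
    split_ifs
    · ring
    · ring
  rw [h3 f, h3 (cav M s0 Ly f), h1]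

theorem err_one {Q0 s0 Q' Lw Ly : ℕ} (h0 : 0 < Q0) (hs : 0 < s0) (hQ : 0 < Q') (hw : 0 < Lw)
    (hy : 0 < Ly) (hd : Q0 ∣ Q') (h1 : 2 * Q' ∣ Lw) (h2 : 2 * Q' * Q0 * s0 ∣ Ly)
    (f : ℤ√2 → ℝ) (Φ : ℤ√2 → ℤ√2 → ℝ) (hΦ : ∀ w y, |Φ w y| ≤ 1)
    (hΦ' : ∀ w y y', y ∈ box Ly → y' ∈ box Ly →
      y.re % ((2 * Q' * Q0 : ℕ) : ℤ) = y'.re % ((2 * Q' * Q0 : ℕ) : ℤ) →
      y.im % ((2 * Q' * Q0 : ℕ) : ℤ) = y'.im % ((2 * Q' * Q0 : ℕ) : ℤ) →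
      (2 * (Q' : ℤ)) ∣ w.re - y.re → (Q' : ℤ) ∣ w.im - y.im → Φ w y = Φ w y') :
    |∑ p ∈ Om Q' Lw Ly, (f p.2 - cav Q0 s0 Ly f p.2) * Φ p.1 p.2| ≤
      #(Om Q' Lw Ly) * √(inc Q0 s0 (2 * Q' * Q0) s0 Ly f) := by
  have e1 : ∑ p ∈ Om Q' Lw Ly, (f p.2 - cav Q0 s0 Ly f p.2) * Φ p.1 p.2 =
      ∑ p ∈ Om Q' Lw Ly,
        (cav (2 * Q' * Q0) s0 Ly f p.2 - cav Q0 s0 Ly f p.2) * Φ p.1 p.2 := by
    rw [sum_Om_eq Q' Lw Ly (fun w y => (f y - cav Q0 s0 Ly f y) * Φ w y),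
      sum_Om_eq Q' Lw Ly
        (fun w y => (cav (2 * Q' * Q0) s0 Ly f y - cav Q0 s0 Ly f y) * Φ w y)]
    refine Finset.sum_congr rfl fun w _ => ?_
    exact step (dvd_mul_right _ _) f (cav Q0 s0 Ly f) w (Φ w) (hΦ' w)
  rw [e1]
  set D : ℤ√2 → ℝ := fun y => |cav (2 * Q' * Q0) s0 Ly f y - cav Q0 s0 Ly f y| with hD
  have e2 : |∑ p ∈ Om Q' Lw Ly,
      (cav (2 * Q' * Q0) s0 Ly f p.2 - cav Q0 s0 Ly f p.2) * Φ p.1 p.2| ≤
      ∑ p ∈ Om Q' Lw Ly, D p.2 := by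
    refine (Finset.abs_sum_le_sum_abs _ _).trans (Finset.sum_le_sum fun p _ => ?_)
    rw [abs_mul]
    calc |cav (2 * Q' * Q0) s0 Ly f p.2 - cav Q0 s0 Ly f p.2| * |Φ p.1 p.2|
        ≤ |cav (2 * Q' * Q0) s0 Ly f p.2 - cav Q0 s0 Ly f p.2| * 1 :=
          mul_le_mul_of_nonneg_left (hΦ _ _) (abs_nonneg _)
      _ = D p.2 := by rw [mul_one]
  refine e2.trans ?_
  rw [sum_Om_right7 hQ h1 D]
  have hcard : (#(Om Q' Lw Ly) : ℝ) = ((Lw : ℝ) / Q') ^ 2 * #(box Ly) := by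
    have := sum_Om_right7 (Lw := Lw) (Ly := Ly) hQ h1 (fun _ => (1 : ℝ))
    simpa using this
  rw [hcard, mul_assoc]
  refine mul_le_mul_of_nonneg_left ?_ (by positivity)
  have hb : (0 : ℝ) < #(box Ly) := by
    rw [card_box]
    positivity
  have hcs : (∑ y ∈ box Ly, D y) ^ 2 ≤ #(box Ly) * ∑ y ∈ box Ly, D y ^ 2 :=
    sq_sum_le_card_mul_sum_sq
  have hinc : inc Q0 s0 (2 * Q' * Q0) s0 Ly f = (∑ y ∈ box Ly, D y ^ 2) / #(box Ly) := by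
    rw [inc]
    congr 1
    refine Finset.sum_congr rfl fun y _ => ?_
    rw [hD, sq_abs]
  rw [hinc]
  have hS : 0 ≤ ∑ y ∈ box Ly, D y ^ 2 := Finset.sum_nonneg fun y _ => sq_nonneg _
  have hL : (#(box Ly) : ℝ) * √((∑ y ∈ box Ly, D y ^ 2) / #(box Ly)) =
      √(#(box Ly) * ∑ y ∈ box Ly, D y ^ 2) := by
    have : (#(box Ly) : ℝ) * ∑ y ∈ box Ly, D y ^ 2 =
        (#(box Ly) : ℝ) ^ 2 * ((∑ y ∈ box Ly, D y ^ 2) / #(box Ly)) := by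
      field_simp
    rw [this, Real.sqrt_mul (sq_nonneg _), Real.sqrt_sq hb.le]
  rw [hL]
  exact Real.le_sqrt_of_sq_le hcs

end Pool.Agent.helper1.PR
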